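import Mathlib

set_option autoImplicit false

open MeasureTheory Set Topology

/-!
# Topological isomorphism of closed subgroups of `S_∞`: definitions
-/

namespace Pool.Agent.Helper732.SInf

universe u v

/-- The topology of pointwise convergence on the group `S_∞ = Equiv.Perm ℕ` of all permutations
of `ℕ` (`ℕ` is discrete). -/
instance permTopology : TopologicalSpace (Equiv.Perm ℕ) :=
  TopologicalSpace.induced (fun σ : Equiv.Perm ℕ => (σ : ℕ → ℕ)) inferInstance

/-- The space of all closed subgroups of `S_∞`. -/
def ClosedSub : Type := {G : Subgroup (Equiv.Perm ℕ) // IsClosed (G : Set (Equiv.Perm ℕ))}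

/-- The Effros Borel structure on the space of closed subgroups: the σ-algebra generated by the
sets `{G | G ∩ U ≠ ∅}` with `U` open in `S_∞`. -/
instance effros : MeasurableSpace ClosedSub :=
  MeasurableSpace.generateFrom
    {S | ∃ U : Set (Equiv.Perm ℕ), IsOpen U ∧ S = {G : ClosedSub | ((G.1 : Set (Equiv.Perm ℕ)) ∩ U).Nonempty}}

/-- Topological isomorphism of two subgroups of `S_∞` (with the subspace topologies). -/
def TopIso (G H : ClosedSub) : Prop :=
  ∃ φ : G.1 ≃* H.1, Continuous φ ∧ Continuous φ.symm

/-- A closed subgroup of `S_∞` is pro-countable if its open normal subgroups form a neighbourhood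
base of the identity. -/
def IsProCountable (G : ClosedSub) : Prop :=
  ∀ U : Set G.1, IsOpen U → (1 : G.1) ∈ U →
    ∃ N : Subgroup G.1, N.Normal ∧ IsOpen (N : Set G.1) ∧ (N : Set G.1) ⊆ U

/-- A class of closed subgroups is invariant if it is closed under topological isomorphism. -/
def IsInvariant (C : Set ClosedSub) : Prop := ∀ G H : ClosedSub, G ∈ C → TopIso G H → H ∈ C

/-- Borel reducibility of (equivalence) relations on measurable spaces. -/
def BorelReducible {X : Type u} {Y : Type v} [MeasurableSpace X] [MeasurableSpace Y]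
    (E : X → X → Prop) (F : Y → Y → Prop) : Prop :=
  ∃ f : X → Y, Measurable f ∧ ∀ x x', E x x' ↔ F (f x) (f x')

/-- A subset of a (standard Borel) space is analytic if it is the range of a Borel map defined on
a Borel subset of the Baire space `ℕ → ℕ`. -/
def IsAnalytic {Z : Type u} [MeasurableSpace Z] (S : Set Z) : Prop :=
  ∃ (B : Set (ℕ → ℕ)) (g : B → Z), MeasurableSet B ∧ Measurable g ∧ Set.range g = S

/-- Every analytic equivalence relation on a standard Borel space (in the universe `u`) is Borel
reducible to `R`. -/
def AnalyticHard {Y : Type v} [MeasurableSpace Y] (R : Y → Y → Prop) : Prop :=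
  ∀ (X : Type u) [MeasurableSpace X] [StandardBorelSpace X] (F : X → X → Prop),
    Equivalence F → IsAnalytic {p : X × X | F p.1 p.2} → BorelReducible F R

/-- `G : ℕ × ℕ → Bool` codes a graph with vertex set `ℕ`: a symmetric irreflexive relation. -/
def IsGraph (G : ℕ × ℕ → Bool) : Prop :=
  (∀ m n, G (m, n) = G (n, m)) ∧ ∀ n, G (n, n) = false

/-- The space of graphs with vertex set `ℕ`, coded as points of `ℕ × ℕ → Bool`. -/
def Graphs : Type := {G : ℕ × ℕ → Bool // IsGraph G}

instance : MeasurableSpace Graphs := inferInstanceAs (MeasurableSpace {G : ℕ × ℕ → Bool // IsGraph G})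

/-- Graph isomorphism. -/
def GraphIso (G H : Graphs) : Prop :=
  ∃ σ : Equiv.Perm ℕ, ∀ m n, G.1 (m, n) = H.1 (σ m, σ n)

end Pool.Agent.Helper732.SInf
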