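import Pool.Agent.Helper732.SInf.Defs
import Pool.Agent.Helper732.SInf.Walk

set_option autoImplicit false

open Set Filter Topology

namespace Pool.Agent.Helper732.SInf

/-- the prime attached to a word `v` of length `k` -/
noncomputable def ell (k : ℕ) (v : Fin k → Bool) : ℕ :=
  Nat.nth Nat.Prime (Encodable.encode (⟨k, v⟩ : Σ k, (Fin k → Bool)))

theorem ell_prime (k : ℕ) (v : Fin k → Bool) : (ell k v).Prime := Nat.prime_nth_prime _

theorem ell_inj {k k' : ℕ} {v : Fin k → Bool} {v' : Fin k' → Bool} (h : ell k v = ell k' v') :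
    (⟨k, v⟩ : Σ k, (Fin k → Bool)) = ⟨k', v'⟩ := by
  apply Encodable.encode_injective
  exact Nat.nth_injective Nat.infinite_setOfPred_prime h

/-- the countable index set -/
structure Idx where
  k : ℕ
  v : Fin k → Bool
  a : ℕ → ℕ
  j : ℕ
  mono : Monotone a
  le : ∀ i, a i ≤ k
  big : ∀ i, k ≤ i → a i = k

/-- a code for indices -/
def Idx.code (p : Idx) : (Σ k, (Fin k → Bool) × (Fin k → Fin (k + 1)) × ℕ) :=
  ⟨p.k, p.v, fun i => ⟨p.a i, Nat.lt_succ_of_le (p.le i)⟩, p.j⟩

theorem Idx.code_injective : Function.Injective Idx.code := by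
  rintro ⟨k, v, a, j, h1, h2, h3⟩ ⟨k', v', a', j', h1', h2', h3'⟩ h
  simp only [Idx.code, Sigma.mk.injEq] at h
  obtain ⟨hk, h⟩ := h
  subst hk
  simp only [heq_eq_eq, Prod.mk.injEq] at h
  obtain ⟨hv, ha, hj⟩ := h
  have : a = a' := by
    funext i
    by_cases hi : i < k
    · have := congrFun ha ⟨i, hi⟩
      simpa using this
    · rw [h3 i (not_lt.1 hi), h3' i (not_lt.1 hi)]
  subst hv hj this
  rfl

instance : Countable Idx := Idx.code_injective.countable

/-- the ambient countable divisible group -/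
abbrev M := AddCircle (1 : ℚ)

instance : Countable M :=
  Function.Surjective.countable (f := fun x : ℚ => (x : M)) QuotientAddGroup.mk_surjective

/-- the annihilator of the `i`-th subgroup at `p` -/
noncomputable def Idx.q (p : Idx) (i : ℕ) : ℕ := ell p.k p.v ^ (p.k - p.a i)

theorem Idx.q_dvd (p : Idx) {i j : ℕ} (h : i ≤ j) : p.q j ∣ p.q i :=
  pow_dvd_pow _ (by have := p.mono h; omega)

theorem Idx.q_big (p : Idx) {i : ℕ} (h : p.k ≤ i) : p.q i = 1 := by
  simp [Idx.q, p.big i h]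

theorem Idx.q_smul (p : Idx) {i j : ℕ} (h : i ≤ j) {c : M} (hc : p.q j • c = 0) :
    p.q i • c = 0 := by
  obtain ⟨d, hd⟩ := p.q_dvd h
  rw [hd, mul_comm, mul_smul, hc, smul_zero]

/-- the ambient group -/
def GG : AddSubgroup (Idx → M) where
  carrier := {g | (∀ p : Idx, ell p.k p.v ^ p.k • g p = 0) ∧ ∀ i, {p : Idx | p.q i • g p ≠ 0}.Finite}
  zero_mem' := by
    constructor
    · intro p; simp
    · intro i; simp
  add_mem' := by
    rintro g h ⟨g1, g2⟩ ⟨h1, h2⟩
    refine ⟨fun p => ?_, fun i => ((g2 i).union (h2 i)).subset ?_⟩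
    · rw [Pi.add_apply, smul_add, g1, h1, add_zero]
    · intro p hp
      by_contra hne
      simp only [mem_union, mem_ofPred_eq, not_or, not_not] at hne
      apply hp
      rw [Pi.add_apply, smul_add, hne.1, hne.2, add_zero]
  neg_mem' := by
    rintro g ⟨g1, g2⟩
    refine ⟨fun p => ?_, fun i => (g2 i).subset ?_⟩
    · rw [Pi.neg_apply, smul_neg, g1, neg_zero]
    · intro p hp hne
      apply hp
      rw [Pi.neg_apply, smul_neg, hne, neg_zero]

/-- the basic open subgroups -/
def NN (i : ℕ) : AddSubgroup GG where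
  carrier := {g | ∀ p : Idx, p.q i • g.1 p = 0}
  zero_mem' := by intro p; simp
  add_mem' := by
    intro g h hg hh p
    have : (g + h).1 p = g.1 p + h.1 p := rfl
    rw [this, smul_add, hg, hh, add_zero]
  neg_mem' := by
    intro g hg p
    have : (-g).1 p = - g.1 p := rfl
    rw [this, smul_neg, hg, neg_zero]

theorem mem_NN {i : ℕ} {g : GG} : g ∈ NN i ↔ ∀ p : Idx, p.q i • g.1 p = 0 := Iff.rfl

theorem NN_anti {i j : ℕ} (h : i ≤ j) : NN j ≤ NN i := fun _ hg p => p.q_smul h (hg p)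

theorem NN_big {i : ℕ} {g : GG} (hg : g ∈ NN i) {p : Idx} (hp : p.k ≤ i) : g.1 p = 0 := by
  have := hg p
  rwa [p.q_big hp, one_smul] at this

/-- elements supported in `P` -/
def GP (P : Set Idx) : AddSubgroup GG where
  carrier := {g | ∀ p, p ∉ P → g.1 p = 0}
  zero_mem' := by intro p _; rfl
  add_mem' := by
    intro g h hg hh p hp
    have : (g + h).1 p = g.1 p + h.1 p := rfl
    rw [this, hg p hp, hh p hp, add_zero]
  neg_mem' := by
    intro g hg p hp
    have : (-g).1 p = - g.1 p := rfl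
    rw [this, hg p hp, neg_zero]

open Classical in
/-- finitely supported approximation -/
noncomputable def trunc (i : ℕ) (g : GG) : GG :=
  ⟨fun p => if p.q i • g.1 p = 0 then 0 else g.1 p, by
    refine ⟨fun p => ?_, fun n => (g.2.2 n).subset ?_⟩
    · dsimp only
      split_ifs
      · simp
      · exact g.2.1 p
    · intro p hp hne
      apply hp
      dsimp only
      split_ifs
      · simp
      · exact hne⟩

theorem trunc_finite (i : ℕ) (g : GG) : {p | (trunc i g).1 p ≠ 0}.Finite := by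
  refine (g.2.2 i).subset ?_
  intro p hp hne
  apply hp
  simp [trunc, hne]

theorem trunc_sub (i : ℕ) (g : GG) : trunc i g - g ∈ NN i := by
  intro p
  have : (trunc i g - g).1 p = (trunc i g).1 p - g.1 p := rfl
  rw [this]
  by_cases h : p.q i • g.1 p = 0
  · simp [trunc, h]
  · simp [trunc, h]

theorem trunc_mem {P : Set Idx} (i : ℕ) {g : GG} (hg : g ∈ GP P) : trunc i g ∈ GP P := by
  intro p hp
  simp [trunc, hg p hp]

/-- finitely supported elements form a countable set -/
theorem countable_fs : {g : GG | {p | g.1 p ≠ 0}.Finite}.Countable := by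
  classical
  have h : Countable {g : GG // {p | g.1 p ≠ 0}.Finite} := by
    let F : {g : GG // {p | g.1 p ≠ 0}.Finite} → Finset (Idx × M) := fun g =>
      g.2.toFinset.image (fun p => (p, g.1.1 p))
    have hF : Function.Injective F := by
      intro g h hgh
      apply Subtype.ext
      apply Subtype.ext
      funext p
      by_contra hne
      have key : ∀ g h : {g : GG // {p | g.1 p ≠ 0}.Finite}, F g = F h → g.1.1 p ≠ 0 → g.1.1 p = h.1.1 p := by
        intro g h hgh hg
        have h1 : (p, g.1.1 p) ∈ F g := Finset.mem_image.2 ⟨p, by simpa using hg, rfl⟩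
        rw [hgh] at h1
        obtain ⟨p', hp', he⟩ := Finset.mem_image.1 h1
        simp only [Prod.mk.injEq] at he
        rw [← he.2, he.1]
      by_cases hg : g.1.1 p = 0
      · by_cases hh : h.1.1 p = 0
        · exact hne (by rw [hg, hh])
        · exact hne (key h g hgh.symm hh).symm
      · exact hne (key g h hgh hg)
    exact hF.countable
  exact h

instance (i : ℕ) : Countable (GG ⧸ NN i) := by
  have h := countable_fs.to_subtype
  have : Function.Surjective (fun g : {g : GG | {p | g.1 p ≠ 0}.Finite} =>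
      (QuotientAddGroup.mk g.1 : GG ⧸ NN i)) := by
    intro c
    induction c using QuotientAddGroup.induction_on with
    | H g =>
      refine ⟨⟨trunc i g, trunc_finite i g⟩, ?_⟩
      rw [QuotientAddGroup.eq]
      have := (NN i).neg_mem (trunc_sub i g)
      rwa [neg_sub, sub_eq_neg_add] at this
  exact this.countable

/-- the countable set on which everything acts -/
abbrev Om := Σ i : ℕ, (GG ⧸ NN i)

instance : Infinite Om :=
  Infinite.of_injective (fun i : ℕ => (⟨i, 0⟩ : Om)) fun i j h => by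
    simpa using congrArg Sigma.fst h

/-- an enumeration of the countable set -/
noncomputable def en : Om ≃ ℕ := (nonempty_equiv_of_countable (α := Om) (β := ℕ)).some

/-- translation by `g` -/
def act (g : GG) : Equiv.Perm Om :=
  Equiv.sigmaCongrRight fun i => Equiv.addLeft (QuotientAddGroup.mk g : GG ⧸ NN i)

/-- the permutation of `ℕ` given by `g` -/
noncomputable def toPerm (g : GG) : Equiv.Perm ℕ := en.permCongr (act g)

theorem toPerm_en (g : GG) (i : ℕ) (c : GG ⧸ NN i) :
    toPerm g (en ⟨i, c⟩) = en ⟨i, (QuotientAddGroup.mk g : GG ⧸ NN i) + c⟩ := by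
  simp [toPerm, act]

theorem toPerm_add (g h : GG) : toPerm (g + h) = toPerm g * toPerm h := by
  ext n
  obtain ⟨⟨i, c⟩, rfl⟩ := en.surjective n
  rw [Equiv.Perm.mul_apply, toPerm_en, toPerm_en, toPerm_en, QuotientAddGroup.mk_add, add_assoc]

theorem toPerm_zero : toPerm 0 = 1 := by
  ext n
  obtain ⟨⟨i, c⟩, rfl⟩ := en.surjective n
  rw [toPerm_en, QuotientAddGroup.mk_zero, zero_add]
  rfl

theorem toPerm_neg (g : GG) : toPerm (-g) = (toPerm g)⁻¹ := by
  rw [eq_inv_iff_mul_eq_one, ← toPerm_add, neg_add_cancel, toPerm_zero]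

theorem toPerm_eq_iff {g h : GG} {i : ℕ} {c : GG ⧸ NN i} :
    toPerm g (en ⟨i, c⟩) = toPerm h (en ⟨i, c⟩) ↔ g - h ∈ NN i := by
  rw [toPerm_en, toPerm_en, en.apply_eq_iff_eq, Sigma.mk.injEq]
  simp only [heq_eq_eq, true_and, add_left_inj]
  rw [eq_comm, QuotientAddGroup.eq, sub_eq_neg_add]

theorem ext_NN {g h : GG} (H : ∀ i, g - h ∈ NN i) : g = h := by
  apply Subtype.ext
  funext p
  have := NN_big (H p.k) (le_refl p.k)
  exact sub_eq_zero.1 this

theorem toPerm_injective : Function.Injective toPerm := by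
  intro g h hgh
  apply ext_NN
  intro i
  rw [← toPerm_eq_iff (c := 0), hgh]

/-- the level of a point -/
noncomputable def lev (n : ℕ) : ℕ := (en.symm n).1

theorem toPerm_eq_of_lev {g h : GG} {n i : ℕ} (hn : lev n ≤ i) (H : g - h ∈ NN i) :
    toPerm g n = toPerm h n := by
  obtain ⟨⟨j, c⟩, rfl⟩ := en.surjective n
  have : lev (en ⟨j, c⟩) = j := by simp [lev]
  rw [this] at hn
  exact toPerm_eq_iff.2 (NN_anti hn H)

theorem exists_lev (S : Finset ℕ) : ∃ i, ∀ n ∈ S, lev n ≤ i :=
  ⟨S.sup lev, fun _ hn => Finset.le_sup hn⟩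

/-! ### topology of `Equiv.Perm ℕ` -/

theorem continuous_eval (n : ℕ) : Continuous fun σ : Equiv.Perm ℕ => σ n :=
  (continuous_apply n).comp continuous_induced_dom

theorem isOpen_agree (n m : ℕ) : IsOpen {σ : Equiv.Perm ℕ | σ n = m} :=
  (isOpen_discrete {m}).preimage (continuous_eval n)

theorem exists_finset {U : Set (Equiv.Perm ℕ)} (hU : IsOpen U) {σ : Equiv.Perm ℕ} (hσ : σ ∈ U) :
    ∃ S : Finset ℕ, ∀ τ : Equiv.Perm ℕ, (∀ n ∈ S, τ n = σ n) → τ ∈ U := by
  obtain ⟨V, hV, rfl⟩ := isOpen_induced_iff.1 hU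
  obtain ⟨I, u, hu, hI⟩ := isOpen_pi_iff.1 hV _ hσ
  refine ⟨I, fun τ hτ => hI ?_⟩
  intro n hn
  have := hτ n hn
  simp only [this]
  exact (hu n hn).2

/-! ### the closed subgroups -/

/-- the subgroup of `S_∞` attached to a set of indices -/
noncomputable def HH (P : Set Idx) : Subgroup (Equiv.Perm ℕ) where
  carrier := {σ | ∃ g ∈ GP P, toPerm g = σ}
  mul_mem' := by
    rintro _ _ ⟨g, hg, rfl⟩ ⟨h, hh, rfl⟩
    exact ⟨g + h, (GP P).add_mem hg hh, toPerm_add g h⟩
  one_mem' := ⟨0, (GP P).zero_mem, toPerm_zero⟩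
  inv_mem' := by
    rintro _ ⟨g, hg, rfl⟩
    exact ⟨-g, (GP P).neg_mem hg, toPerm_neg g⟩

theorem mem_HH {P : Set Idx} {σ : Equiv.Perm ℕ} : σ ∈ HH P ↔ ∃ g ∈ GP P, toPerm g = σ := Iff.rfl

theorem isClosed_HH (P : Set Idx) : IsClosed (HH P : Set (Equiv.Perm ℕ)) := by
  classical
  rw [← closure_subset_iff_isClosed]
  intro σ hσ
  have happ : ∀ S : Finset ℕ, ∃ g ∈ GP P, ∀ n ∈ S, σ n = toPerm g n := by
    intro S
    have hopen : IsOpen (⋂ n ∈ S, {τ : Equiv.Perm ℕ | τ n = σ n}) :=
      isOpen_biInter_finset fun n _ => isOpen_agree n (σ n)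
    obtain ⟨τ, hτ1, g, hg, rfl⟩ := mem_closure_iff.1 hσ _ hopen (by simp)
    refine ⟨g, hg, fun n hn => ?_⟩
    simp only [mem_iInter, mem_ofPred_eq] at hτ1
    exact (hτ1 n hn).symm
  have h1 : ∀ i, ∃ g ∈ GP P, σ (en ⟨i, 0⟩) = toPerm g (en ⟨i, 0⟩) := by
    intro i
    obtain ⟨g, hg, h⟩ := happ {en ⟨i, 0⟩}
    exact ⟨g, hg, h _ (by simp)⟩
  choose g hgP hg using h1
  have hcoh : ∀ i j, i ≤ j → g j - g i ∈ NN i := by
    intro i j hij
    obtain ⟨g', hg', h⟩ := happ {en ⟨i, 0⟩, en ⟨j, 0⟩}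
    have e1 : g' - g i ∈ NN i := by
      rw [← toPerm_eq_iff (c := 0), ← h _ (by simp), hg i]
    have e2 : g' - g j ∈ NN j := by
      rw [← toPerm_eq_iff (c := 0), ← h _ (by simp), hg j]
    have e3 := (NN i).sub_mem e1 (NN_anti hij e2)
    have : g' - g i - (g' - g j) = g j - g i := by abel
    rwa [this] at e3
  let G0 : Idx → M := fun p => (g p.k).1 p
  have hG0 : ∀ i (p : Idx), p.q i • (G0 p - (g i).1 p) = 0 := by
    intro i p
    rcases le_total p.k i with h | h
    · have h2 := NN_big (hcoh p.k i h) (le_refl p.k)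
      have h3 : (g i).1 p - (g p.k).1 p = 0 := h2
      have : G0 p = (g i).1 p := (sub_eq_zero.1 h3).symm
      rw [this, sub_self, smul_zero]
    · have h2 := hcoh i p.k h p
      exact h2
  have hmem : G0 ∈ GG := by
    refine ⟨fun p => (g p.k).2.1 p, fun i => ((g i).2.2 i).subset ?_⟩
    intro p hp hne
    apply hp
    have := hG0 i p
    rw [smul_sub, hne, sub_zero] at this
    exact this
  have hGi : ∀ i, (⟨G0, hmem⟩ : GG) - g i ∈ NN i := fun i p => hG0 i p
  refine ⟨⟨G0, hmem⟩, fun p hp => hgP p.k p hp, ?_⟩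
  ext n
  obtain ⟨⟨i, c⟩, rfl⟩ := en.surjective n
  obtain ⟨g', hg', h⟩ := happ {en ⟨i, 0⟩, en ⟨i, c⟩}
  rw [h (en ⟨i, c⟩) (by simp), toPerm_eq_iff]
  have e1 : g' - g i ∈ NN i := by
    rw [← toPerm_eq_iff (c := 0), ← h _ (by simp), hg i]
  have e3 := (NN i).sub_mem (hGi i) e1
  have : (⟨G0, hmem⟩ : GG) - g i - (g' - g i) = ⟨G0, hmem⟩ - g' := by abel
  rwa [this] at e3

/-- the closed subgroup attached to a set of indices -/
noncomputable def HC (P : Set Idx) : ClosedSub := ⟨HH P, isClosed_HH P⟩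

end Pool.Agent.Helper732.SInf
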