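import Mathlib
set_option autoImplicit false
open Set MeasureTheory TopologicalSpace

namespace Pool.Agent.Helper732.SInf

/-- (vendored from `Pool.Agent.Helper90.CB.NonBorel`, written by helper90) There is a measurable map from a standard Borel space to the Cantor space whose range is not
measurable. -/
theorem exists_range_not_measurable : ∃ (Y : Type) (_ : MeasurableSpace Y)
    (_ : StandardBorelSpace Y) (π : Y → (ℕ → Bool)), Measurable π ∧
    ¬ MeasurableSet (Set.range π) := by
  classical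
  have hP : PolishSpace (ℕ → Bool) := by
    have : IsCompletelyMetrizableSpace (ℕ → Bool) := IsCompletelyMetrizableSpace.pi_countable
    infer_instance
  obtain ⟨b, hbc, hbe, hb⟩ := TopologicalSpace.exists_countable_basis ((ℕ → Bool) × (ℕ → ℕ))
  obtain ⟨B, hB⟩ : ∃ B : ℕ → Set ((ℕ → Bool) × (ℕ → ℕ)), b = Set.range B := by
    apply hbc.exists_eq_range
    rw [Set.nonempty_iff_ne_empty]
    rintro rfl
    have := hb.sUnion_eq
    simp at this
    exact (Set.empty_ne_univ this)
  have hBo : ∀ n, IsOpen (B n) := fun n => hb.isOpen (by rw [hB]; exact ⟨n, rfl⟩)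
  let Ys : Set ((ℕ → Bool) × (ℕ → ℕ)) := {q | ∀ n, q.1 n = true → q ∉ B n}
  have hYs : IsClosed Ys := by
    have : Ys = ⋂ n, ({q : (ℕ → Bool) × (ℕ → ℕ) | q.1 n = true} ∩ B n)ᶜ := by
      ext q
      simp only [Ys, Set.mem_setOf_eq, Set.mem_iInter, Set.mem_compl_iff, Set.mem_inter_iff,
        not_and]
    rw [this]
    refine isClosed_iInter fun n => IsOpen.isClosed_compl (IsOpen.inter ?_ (hBo n))
    have hcont : Continuous fun q : (ℕ → Bool) × (ℕ → ℕ) => q.1 n :=
      (continuous_apply n).comp continuous_fst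
    exact (isOpen_discrete {true}).preimage hcont
  have : StandardBorelSpace Ys := hYs.measurableSet.standardBorel
  refine ⟨Ys, inferInstance, this, fun y => y.1.1,
    measurable_fst.comp measurable_subtype_coe, ?_⟩
  intro hmeas
  have hD := hmeas.compl.analyticSet
  obtain ⟨F, hF, hFD⟩ : ∃ F : Set ((ℕ → Bool) × (ℕ → ℕ)), IsClosed F ∧
      ∀ x, x ∈ (Set.range fun y : Ys => y.1.1)ᶜ ↔ ∃ α, (x, α) ∈ F := by
    rw [AnalyticSet] at hD
    rcases hD with h0 | ⟨g, hg, hgr⟩
    · refine ⟨∅, isClosed_empty, fun x => ?_⟩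
      rw [h0]; simp
    · refine ⟨{q | g q.2 = q.1}, isClosed_eq (hg.comp continuous_snd) continuous_fst,
        fun x => ?_⟩
      rw [← hgr]; rfl
  let c : ℕ → Bool := fun n => decide (B n ∩ F = ∅)
  have hc : ∀ q : (ℕ → Bool) × (ℕ → ℕ), (∀ n, c n = true → q ∉ B n) ↔ q ∈ F := by
    intro q
    constructor
    · intro h
      by_contra hq
      obtain ⟨s, hs, hqs, hsF⟩ := hb.exists_subset_of_mem_open (show q ∈ Fᶜ from hq)
        hF.isOpen_compl
      rw [hB] at hs
      obtain ⟨n, rfl⟩ := hs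
      refine h n ?_ hqs
      simp only [c, decide_eq_true_eq]
      rw [← Set.disjoint_iff_inter_eq_empty]
      exact Set.disjoint_left.2 fun z hz hz' => hsF hz hz'
    · intro hq n hn hqn
      simp only [c, decide_eq_true_eq] at hn
      have : q ∈ B n ∩ F := ⟨hqn, hq⟩
      rw [hn] at this
      exact this
  by_cases hcr : c ∈ Set.range fun y : Ys => y.1.1
  · obtain ⟨⟨⟨x, α⟩, hy⟩, hx⟩ := hcr
    have hx : x = c := hx
    subst hx
    have h1 : (c, α) ∈ F := (hc (c, α)).1 hy
    exact ((hFD c).2 ⟨α, h1⟩) ⟨⟨(c, α), hy⟩, rfl⟩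
  · obtain ⟨α, hα⟩ := (hFD c).1 hcr
    exact hcr ⟨⟨(c, α), (hc (c, α)).2 hα⟩, rfl⟩

end Pool.Agent.Helper732.SInf
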