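import Mathlib

set_option autoImplicit false

/-!
Borelness of isomorphism classes (vendored from `Pool.Agent.Helper750.Eff` and
`Pool.Agent.Helper750.Orbit`, written by helper750).
-/

namespace Pool.Agent.Helper732.SInf.Orb

open Set MeasureTheory

/-- The first `n` values of `x`. -/
def pfx (x : ℕ → ℕ) (n : ℕ) : List ℕ := (List.range n).map x

@[simp] theorem pfx_length (x : ℕ → ℕ) (n : ℕ) : (pfx x n).length = n := by simp [pfx]

theorem pfx_take (x : ℕ → ℕ) {n m : ℕ} (h : n ≤ m) : (pfx x m).take n = pfx x n := by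
  simp [pfx, ← List.map_take, List.take_range, Nat.min_eq_left h]

theorem pfx_getElem? (x : ℕ → ℕ) (m k : ℕ) : (pfx x m)[k]? = if k < m then some (x k) else none := by
  by_cases h : k < m
  · simp [pfx, h]
  · simp [pfx, h]

theorem pfx_succ (x : ℕ → ℕ) (n : ℕ) : pfx x (n + 1) = pfx x n ++ [x n] := by
  simp [pfx, List.range_succ]

theorem pfx_getD (x : ℕ → ℕ) {m k : ℕ} (h : k < m) (d : ℕ) : (pfx x m).getD k d = x k := by
  rw [List.getD_eq_getElem?_getD, pfx_getElem?, if_pos h]
  rfl

theorem pfx_inj {x y : ℕ → ℕ} (h : ∀ n, pfx x n = pfx y n) : x = y := by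
  funext n
  have := h (n + 1)
  rw [pfx_succ, pfx_succ, h n] at this
  simpa using this

/-- even part -/
def evn (w : ℕ → ℕ) : ℕ → ℕ := fun n => w (2 * n)
/-- odd part -/
def odd (w : ℕ → ℕ) : ℕ → ℕ := fun n => w (2 * n + 1)
/-- interleaving -/
def join (x y : ℕ → ℕ) : ℕ → ℕ := fun n => if n % 2 = 0 then x (n / 2) else y (n / 2)
/-- column -/
def col (w : ℕ → ℕ) (k : ℕ) : ℕ → ℕ := fun n => w (Nat.pair k n)

@[simp] theorem evn_join (x y : ℕ → ℕ) : evn (join x y) = x := by
  funext n; simp [evn, join]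

@[simp] theorem odd_join (x y : ℕ → ℕ) : odd (join x y) = y := by
  funext n
  have h1 : (2 * n + 1) % 2 = 1 := by omega
  have h2 : (2 * n + 1) / 2 = n := by omega
  simp [odd, join, h1, h2]

@[simp] theorem join_evn_odd (w : ℕ → ℕ) : join (evn w) (odd w) = w := by
  funext n
  by_cases h : n % 2 = 0
  · simp only [join, evn, h, if_true]
    congr 1; omega
  · simp only [join, odd, h, if_false]
    congr 1; omega



theorem isOpen_pfx (x : ℕ → ℕ) (n : ℕ) : IsOpen {y : ℕ → ℕ | pfx y n = pfx x n} := by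
  have h : {y : ℕ → ℕ | pfx y n = pfx x n} = ⋂ i ∈ Finset.range n, {y : ℕ → ℕ | y i = x i} := by
    ext y
    simp only [mem_ofPred_eq, mem_iInter, Finset.mem_range]
    constructor
    · intro h i hi
      rw [← pfx_getD y hi 0, h, pfx_getD x hi]
    · intro h
      unfold pfx
      exact List.map_congr_left fun i hi => h i (List.mem_range.mp hi)
  rw [h]
  exact isOpen_biInter_finset fun i _ =>
    (isOpen_discrete {x i}).preimage (continuous_apply (A := fun _ : ℕ => ℕ) i)

theorem isOpen_pfx' (s : List ℕ) : IsOpen {y : ℕ → ℕ | pfx y s.length = s} := by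
  by_cases h : ∃ x : ℕ → ℕ, pfx x s.length = s
  · obtain ⟨x, hx⟩ := h
    have := isOpen_pfx x s.length
    rwa [hx] at this
  · have e : {y : ℕ → ℕ | pfx y s.length = s} = ∅ := by
      ext y
      simp only [mem_ofPred_eq, mem_empty_iff_false, iff_false]
      exact fun hy => h ⟨y, hy⟩
    rw [e]
    exact isOpen_empty

theorem mem_of_forall_pfx {C : Set (ℕ → ℕ)} (hC : IsClosed C) {x : ℕ → ℕ}
    (h : ∀ n, ∃ y ∈ C, pfx y n = pfx x n) : x ∈ C := by
  by_contra hx
  have h1 : IsOpen Cᶜ := hC.isOpen_compl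
  rw [isOpen_pi_iff] at h1
  obtain ⟨I, u, hu, hIU⟩ := h1 x hx
  obtain ⟨y, hy, hyx⟩ := h (I.sup id + 1)
  apply hIU (a := y) _ hy
  intro j hj
  have hj' : j < I.sup id + 1 := Nat.lt_succ_of_le (Finset.le_sup (f := id) hj)
  have h2 : y j = x j := by
    rw [← pfx_getD y hj' 0, hyx, pfx_getD x hj']
  rw [h2]
  exact (hu j hj).2

/-- leftmost element of a nonempty closed set -/
theorem exists_leftmost {C : Set (ℕ → ℕ)} (hC : IsClosed C) (hne : C.Nonempty) :
    ∃ x ∈ C, ∀ n, ∀ v < x n, ¬ ∃ y ∈ C, pfx y (n + 1) = pfx x n ++ [v] := by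
  classical
  have hstep : ∀ s : {s : List ℕ // ∃ y ∈ C, pfx y s.length = s},
      ∃ v, ∃ y ∈ C, pfx y (s.1.length + 1) = s.1 ++ [v] := by
    rintro ⟨s, y, hy, hs⟩
    exact ⟨y s.length, y, hy, by
      change pfx y (s.length + 1) = s ++ [y s.length]
      rw [pfx_succ, hs]⟩
  let nx : {s : List ℕ // ∃ y ∈ C, pfx y s.length = s} → ℕ := fun s => Nat.find (hstep s)
  let f : ℕ → {s : List ℕ // ∃ y ∈ C, pfx y s.length = s} := fun n =>
    Nat.rec ⟨[], by obtain ⟨y, hy⟩ := hne; exact ⟨y, hy, rfl⟩⟩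
      (fun _ s => ⟨s.1 ++ [nx s], by
        obtain ⟨y, hy, h⟩ := Nat.find_spec (hstep s)
        exact ⟨y, hy, by rw [List.length_append, List.length_singleton]; exact h⟩⟩) n
  have hfs : ∀ n, (f (n + 1)).1 = (f n).1 ++ [nx (f n)] := fun n => rfl
  have hp : ∀ n, pfx (fun n => nx (f n)) n = (f n).1 := by
    intro n
    induction n with
    | zero => rfl
    | succ n ih => rw [pfx_succ, ih, hfs]
  have hl : ∀ n, (f n).1.length = n := fun n => by rw [← hp, pfx_length]
  refine ⟨fun n => nx (f n), mem_of_forall_pfx hC fun n => ?_, fun n v hv => ?_⟩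
  · obtain ⟨y, hy, h⟩ := (f n).2
    refine ⟨y, hy, ?_⟩
    rw [hl] at h
    rw [h, hp]
  · have h1 := Nat.find_min (hstep (f n)) hv
    rw [hl] at h1
    rw [hp]
    exact h1

/-- The image of a closed set under a continuous map is Borel as soon as the saturations of basic
open sets are. -/
theorem measurableSet_image {Y : Type*} [TopologicalSpace Y] [T2Space Y] [MeasurableSpace Y]
    [BorelSpace Y] {P : Set (ℕ → ℕ)} (hP : IsClosed P) {Φ : (ℕ → ℕ) → Y} (hΦ : Continuous Φ)
    (hsat : ∀ s : List ℕ, MeasurableSet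
      {x : ℕ → ℕ | x ∈ P ∧ ∃ x' ∈ P, pfx x' s.length = s ∧ Φ x' = Φ x}) :
    MeasurableSet (Φ '' P) := by
  let Sat : List ℕ → Set (ℕ → ℕ) := fun s =>
    {x : ℕ → ℕ | x ∈ P ∧ ∃ x' ∈ P, pfx x' s.length = s ∧ Φ x' = Φ x}
  let T : Set (ℕ → ℕ) := P ∩ ⋂ s : List ℕ, ⋂ v : ℕ,
    ({x | pfx x s.length = s} ∩ {x | v < x s.length} ∩ Sat (s ++ [v]))ᶜ
  have hT : MeasurableSet T := by
    refine hP.measurableSet.inter (MeasurableSet.iInter fun s => MeasurableSet.iInter fun v => ?_)
    refine (((isOpen_pfx' s).measurableSet.inter ?_).inter (hsat _)).compl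
    exact (isOpen_discrete {m : ℕ | v < m}).measurableSet.preimage (measurable_pi_apply s.length)
  have hinj : InjOn Φ T := by
    intro x hx y hy hxy
    by_contra hne
    have hex : ∃ n, x n ≠ y n := by
      by_contra hcon
      push Not at hcon
      exact hne (funext hcon)
    classical
    have hmin : ∀ m < Nat.find hex, x m = y m := fun m hm => not_not.mp (Nat.find_min hex hm)
    have hspec := Nat.find_spec hex
    set n := Nat.find hex with hn
    have hpf : pfx x n = pfx y n := by
      unfold pfx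
      exact List.map_congr_left fun i hi => hmin i (List.mem_range.mp hi)
    have key : ∀ x y : ℕ → ℕ, x ∈ T → y ∈ T → Φ x = Φ y → pfx x n = pfx y n → ¬ y n < x n := by
      intro x y hx hy hxy hpf hlt
      have h1 := hx.2
      rw [mem_iInter] at h1
      have h2 := h1 (pfx x n)
      rw [mem_iInter] at h2
      apply h2 (y n)
      refine ⟨⟨by rw [mem_ofPred_eq, pfx_length], by rw [mem_ofPred_eq, pfx_length]; exact hlt⟩,
        hx.1, y, hy.1, ?_, hxy.symm⟩
      rw [List.length_append, pfx_length, List.length_singleton, pfx_succ, hpf]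
    rcases lt_trichotomy (x n) (y n) with h | h | h
    · exact key y x hy hx hxy.symm hpf.symm h
    · exact hspec h
    · exact key x y hx hy hxy hpf h
  have himg : Φ '' P = Φ '' T := by
    apply Subset.antisymm
    · rintro _ ⟨x, hx, rfl⟩
      have hC : IsClosed (P ∩ Φ ⁻¹' {Φ x}) := hP.inter (isClosed_singleton.preimage hΦ)
      obtain ⟨y, hy, hl⟩ := exists_leftmost hC ⟨x, hx, rfl⟩
      refine ⟨y, ⟨hy.1, ?_⟩, hy.2⟩
      rw [mem_iInter]
      intro s
      rw [mem_iInter]
      rintro v ⟨⟨hs, hv⟩, _, z, hz, hzs, hzΦ⟩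
      rw [mem_ofPred_eq] at hs hv
      refine hl s.length v hv ⟨z, ⟨hz, ?_⟩, ?_⟩
      · rw [mem_preimage, mem_singleton_iff, hzΦ]
        exact hy.2
      · rw [hs]
        rw [List.length_append, List.length_singleton] at hzs
        exact hzs
    · exact image_mono inter_subset_left
  rw [himg]
  exact hT.image_of_continuousOn_injOn hΦ.continuousOn hinj

theorem continuous_app {Z : Type*} [TopologicalSpace Z] {F : Z → ℕ → ℕ} {G : Z → ℕ}
    (hF : Continuous F) (hG : Continuous G) : Continuous (fun z => F z (G z)) := by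
  have h : IsLocallyConstant (fun z => F z (G z)) := by
    intro S
    have e : (fun z => F z (G z)) ⁻¹' S = ⋃ m : ℕ, (G ⁻¹' {m}) ∩ ((fun z => F z m) ⁻¹' S) := by
      ext z
      simp
    rw [e]
    refine isOpen_iUnion fun m => ((isOpen_discrete _).preimage hG).inter ?_
    exact (isOpen_discrete S).preimage ((continuous_apply m).comp hF)
  exact h.continuous

/-! ### Pairs of permutations coded by reals -/

def s1 (x : ℕ → ℕ) : ℕ → ℕ := evn (evn x)
def s2 (x : ℕ → ℕ) : ℕ → ℕ := odd (evn x)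
def s3 (x : ℕ → ℕ) : ℕ → ℕ := evn (odd x)
def s4 (x : ℕ → ℕ) : ℕ → ℕ := odd (odd x)
def mk (a b c d : ℕ → ℕ) : ℕ → ℕ := join (join a b) (join c d)

@[simp] theorem s1_mk (a b c d : ℕ → ℕ) : s1 (mk a b c d) = a := by simp [s1, mk]
@[simp] theorem s2_mk (a b c d : ℕ → ℕ) : s2 (mk a b c d) = b := by simp [s2, mk]
@[simp] theorem s3_mk (a b c d : ℕ → ℕ) : s3 (mk a b c d) = c := by simp [s3, mk]
@[simp] theorem s4_mk (a b c d : ℕ → ℕ) : s4 (mk a b c d) = d := by simp [s4, mk]
@[simp] theorem mk_s (x : ℕ → ℕ) : mk (s1 x) (s2 x) (s3 x) (s4 x) = x := by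
  simp [s1, s2, s3, s4, mk]

theorem continuous_evn : Continuous evn := continuous_pi fun n => continuous_apply (2 * n)
theorem continuous_odd : Continuous odd := continuous_pi fun n => continuous_apply (2 * n + 1)
theorem continuous_s1 : Continuous s1 := continuous_evn.comp continuous_evn
theorem continuous_s2 : Continuous s2 := continuous_odd.comp continuous_evn
theorem continuous_s3 : Continuous s3 := continuous_evn.comp continuous_odd
theorem continuous_s4 : Continuous s4 := continuous_odd.comp continuous_odd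

theorem continuous_join {Z : Type*} [TopologicalSpace Z] {F G : Z → ℕ → ℕ} (hF : Continuous F)
    (hG : Continuous G) : Continuous (fun z => join (F z) (G z)) := by
  refine continuous_pi fun n => ?_
  unfold join
  by_cases h : n % 2 = 0
  · simp only [h, if_true]; exact (continuous_apply _).comp hF
  · simp only [h, if_false]; exact (continuous_apply _).comp hG

/-- codes of pairs of permutations -/
def PP : Set (ℕ → ℕ) := {x | (∀ n, s1 x (s2 x n) = n) ∧ (∀ n, s2 x (s1 x n) = n) ∧
  (∀ n, s3 x (s4 x n) = n) ∧ (∀ n, s4 x (s3 x n) = n)}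

theorem isClosed_PP : IsClosed PP := by
  have key : ∀ {F G : (ℕ → ℕ) → (ℕ → ℕ)}, Continuous F → Continuous G →
      IsClosed {x : ℕ → ℕ | ∀ n, F x (G x n) = n} := by
    intro F G hF hG
    have e : {x : ℕ → ℕ | ∀ n, F x (G x n) = n} = ⋂ n : ℕ, {x | F x (G x n) = n} := by
      ext x; simp
    rw [e]
    refine isClosed_iInter fun n => ?_
    exact (isClosed_discrete {n}).preimage (continuous_app hF ((continuous_apply n).comp hG))
  exact (key continuous_s1 continuous_s2).inter ((key continuous_s2 continuous_s1).inter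
    ((key continuous_s3 continuous_s4).inter (key continuous_s4 continuous_s3)))

/-- product -/
def mul (x h : ℕ → ℕ) : ℕ → ℕ :=
  mk (fun n => s1 x (s1 h n)) (fun n => s2 h (s2 x n)) (fun n => s3 x (s3 h n))
    (fun n => s4 h (s4 x n))

theorem continuous_mul (h : ℕ → ℕ) : Continuous (fun x => mul x h) := by
  unfold mul mk
  refine continuous_join (continuous_join ?_ ?_) (continuous_join ?_ ?_)
  · exact continuous_pi fun n => (continuous_apply _).comp continuous_s1
  · exact continuous_pi fun n =>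
      (continuous_of_discreteTopology (f := s2 h)).comp ((continuous_apply n).comp continuous_s2)
  · exact continuous_pi fun n => (continuous_apply _).comp continuous_s3
  · exact continuous_pi fun n =>
      (continuous_of_discreteTopology (f := s4 h)).comp ((continuous_apply n).comp continuous_s4)

theorem mul_mem {x h : ℕ → ℕ} (hx : x ∈ PP) (hh : h ∈ PP) : mul x h ∈ PP := by
  obtain ⟨a1, a2, a3, a4⟩ := hx
  obtain ⟨b1, b2, b3, b4⟩ := hh
  refine ⟨fun n => ?_, fun n => ?_, fun n => ?_, fun n => ?_⟩ <;>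
    simp [mul, a1, a2, a3, a4, b1, b2, b3, b4]

def inv (x : ℕ → ℕ) : ℕ → ℕ := mk (s2 x) (s1 x) (s4 x) (s3 x)

theorem inv_mem {x : ℕ → ℕ} (hx : x ∈ PP) : inv x ∈ PP := by
  obtain ⟨a1, a2, a3, a4⟩ := hx
  refine ⟨fun n => ?_, fun n => ?_, fun n => ?_, fun n => ?_⟩ <;>
    simp [inv, a1, a2, a3, a4]

theorem mul_inv_mul {x y : ℕ → ℕ} (hx : x ∈ PP) : mul x (mul (inv x) y) = y := by
  obtain ⟨a1, a2, a3, a4⟩ := hx
  conv_rhs => rw [← mk_s y]
  simp [mul, inv, a1, a3]

variable (y0 : ℕ → List ℕ → ℕ)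

/-- the action on the structure `y0` -/
def act (x : ℕ → ℕ) : ℕ → List ℕ → ℕ := fun n l => y0 (s4 x n) (l.map (s2 x))

theorem continuous_map_list {F : (ℕ → ℕ) → (ℕ → ℕ)} (hF : Continuous F) (l : List ℕ) (k : ℕ)
    (g : ℕ → List ℕ → ℕ) {H : (ℕ → ℕ) → ℕ} (hH : Continuous H) :
    IsOpen {x : ℕ → ℕ | g (H x) (l.map (F x)) = k} := by
  have key : ∀ l : List ℕ, ∀ m : List ℕ, IsOpen {x : ℕ → ℕ | l.map (F x) = m} := by
    intro l
    induction l with
    | nil => intro m; simp
    | cons a l ih =>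
      intro m
      cases m with
      | nil => simp
      | cons b m =>
        have e : {x : ℕ → ℕ | (a :: l).map (F x) = b :: m} =
            {x | F x a = b} ∩ {x | l.map (F x) = m} := by
          ext x; simp
        rw [e]
        exact ((isOpen_discrete {b}).preimage ((continuous_apply a).comp hF)).inter (ih m)
  have e : {x : ℕ → ℕ | g (H x) (l.map (F x)) = k} =
      ⋃ h : ℕ, ⋃ m ∈ {m : List ℕ | g h m = k}, {x | H x = h} ∩ {x | l.map (F x) = m} := by
    ext x
    simp
  rw [e]
  refine isOpen_iUnion fun h => isOpen_biUnion fun m _ => ?_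
  exact ((isOpen_discrete {h}).preimage hH).inter (key l m)

theorem continuous_act : Continuous (act y0) := by
  refine continuous_pi fun n => continuous_pi fun l => ?_
  have h : IsLocallyConstant (fun x : ℕ → ℕ => act y0 x n l) := by
    intro S
    have e : (fun x : ℕ → ℕ => act y0 x n l) ⁻¹' S =
        ⋃ k ∈ S, {x : ℕ → ℕ | y0 (s4 x n) (l.map (s2 x)) = k} := by
      ext x
      simp [act]
    rw [e]
    exact isOpen_biUnion fun k _ => continuous_map_list continuous_s2 l k y0
      ((continuous_apply n).comp continuous_s4)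
  exact h.continuous

theorem act_mul (x h : ℕ → ℕ) : act y0 (mul x h) = fun n l => act y0 h (s4 x n) (l.map (s2 x)) := by
  funext n l
  simp [act, mul, Function.comp_def]

theorem measurableSet_orbit_aux : MeasurableSet (act y0 '' PP) := by
  refine measurableSet_image isClosed_PP (continuous_act y0) fun s => ?_
  have e : {x : ℕ → ℕ | x ∈ PP ∧ ∃ x' ∈ PP, pfx x' s.length = s ∧ act y0 x' = act y0 x} =
      PP ∩ ⋃ h ∈ {h : ℕ → ℕ | h ∈ PP ∧ act y0 h = y0}, {x | pfx (mul x h) s.length = s} := by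
    ext x
    simp only [mem_ofPred_eq, mem_inter_iff, mem_iUnion, exists_prop]
    constructor
    · rintro ⟨hx, x', hx', hs, hact⟩
      refine ⟨hx, mul (inv x) x', ⟨mul_mem (inv_mem hx) hx', ?_⟩, ?_⟩
      · obtain ⟨a1, a2, a3, a4⟩ := hx
        rw [act_mul, hact]
        funext n l
        simp only [act, inv, s4_mk, s2_mk, List.map_map]
        rw [a4]
        congr 1
        conv_rhs => rw [← List.map_id l]
        exact List.map_congr_left fun i _ => a2 i
      · rw [mul_inv_mul hx]
        exact hs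
    · rintro ⟨hx, h, ⟨hh, hact⟩, hs⟩
      refine ⟨hx, mul x h, mul_mem hx hh, hs, ?_⟩
      rw [act_mul, hact]
      rfl
  rw [e]
  refine isClosed_PP.measurableSet.inter (IsOpen.measurableSet ?_)
  exact isOpen_biUnion fun h _ => (isOpen_pfx' s).preimage (continuous_mul h)

/-- Isomorphism classes are Borel. -/
theorem measurableSet_orbit : MeasurableSet {y : ℕ → List ℕ → ℕ |
    ∃ σ π : Equiv.Perm ℕ, ∀ n l, y (π n) (l.map σ) = y0 n l} := by
  have e : {y : ℕ → List ℕ → ℕ | ∃ σ π : Equiv.Perm ℕ, ∀ n l, y (π n) (l.map σ) = y0 n l} =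
      act y0 '' PP := by
    ext y
    constructor
    · rintro ⟨σ, π, h⟩
      refine ⟨mk σ σ.symm π π.symm, ⟨by simp, by simp, by simp, by simp⟩, ?_⟩
      funext n l
      have := h (π.symm n) (l.map σ.symm)
      simp only [Equiv.apply_symm_apply, List.map_map, Equiv.self_comp_symm, List.map_id] at this
      simp only [act, s4_mk, s2_mk]
      exact this.symm
    · rintro ⟨x, ⟨a1, a2, a3, a4⟩, rfl⟩
      refine ⟨⟨s1 x, s2 x, a2, a1⟩, ⟨s3 x, s4 x, a4, a3⟩, fun n l => ?_⟩
      simp only [act, Equiv.coe_fn_mk, List.map_map]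
      rw [a4]
      congr 1
      conv_rhs => rw [← List.map_id l]
      exact List.map_congr_left fun i _ => a2 i
  rw [e]
  exact measurableSet_orbit_aux y0

end Pool.Agent.Helper732.SInf.Orb
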