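import Pool.Agent.Helper732.SInf.Main
import Pool.Agent.Helper732.SInf.Orb
import Pool.Agent.Helper732.SInf.NonBorel

set_option autoImplicit false

open Set Filter Topology MeasureTheory TopologicalSpace

namespace Pool.Agent.Helper732.SInf

universe u

instance : PolishSpace (ℕ → Bool) := by
  have : IsCompletelyMetrizableSpace (ℕ → Bool) := IsCompletelyMetrizableSpace.pi_countable
  infer_instance

/-- The restriction of topological isomorphism to a class of closed subgroups. -/
def TopIsoOn (C : Set ClosedSub) (G H : {G : ClosedSub // G ∈ C}) : Prop := TopIso G.1 H.1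

theorem cantor_case (E : (ℕ → Bool) → (ℕ → Bool) → Prop) (hE : Equivalence E)
    (hA : AnalyticSet {p : (ℕ → Bool) × (ℕ → Bool) | E p.1 p.2}) :
    ∃ r : (ℕ → Bool) → ClosedSub, Measurable r ∧ (∀ x, IsProCountable (r x)) ∧
      ∀ x y, E x y ↔ TopIso (r x) (r y) := by
  rw [AnalyticSet] at hA
  rcases hA with h | ⟨f, hf, hr⟩
  · exfalso
    have : ((fun _ => true, fun _ => true) : (ℕ → Bool) × (ℕ → Bool)) ∈
        {p : (ℕ → Bool) × (ℕ → Bool) | E p.1 p.2} := hE.refl _
    rw [h] at this
    exact this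
  · have hfE : ∀ γ, E (f γ).1 (f γ).2 := by
      intro γ
      have : f γ ∈ {p : (ℕ → Bool) × (ℕ → Bool) | E p.1 p.2} := by
        rw [← hr]; exact ⟨γ, rfl⟩
      exact this
    refine ⟨fun x => HC (PX f x), measurable_HC f, fun x => isProCountable_HC _, fun x y => ⟨?_, ?_⟩⟩
    · intro hxy
      have : (x, y) ∈ Set.range f := by rw [hr]; exact hxy
      obtain ⟨γ, hγ⟩ := this
      have h := topIso_of_rel (f := f) γ
      rw [hγ] at h
      exact h
    · intro h
      exact hE.symm (rel_of_topIso hf E hE hfE h)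

theorem analyticHard_of_proCountable (C : Set ClosedSub) (hC : ∀ G, IsProCountable G → G ∈ C) :
    AnalyticHard.{u} (TopIsoOn C) := by
  intro X _ _ F hF hFA
  obtain ⟨e, he, hinj⟩ := MeasurableSpace.measurable_injection_nat_bool_of_countablySeparated X
  let E : (ℕ → Bool) → (ℕ → Bool) → Prop := fun u v => u = v ∨ ∃ x y, e x = u ∧ e y = v ∧ F x y
  have hE : Equivalence E := by
    refine ⟨fun u => Or.inl rfl, ?_, ?_⟩
    · rintro u v (h | ⟨x, y, h1, h2, h3⟩)
      · exact Or.inl h.symm
      · exact Or.inr ⟨y, x, h2, h1, hF.symm h3⟩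
    · rintro u v w (rfl | ⟨x, y, h1, h2, h3⟩) (rfl | ⟨x', y', h1', h2', h3'⟩)
      · exact Or.inl rfl
      · exact Or.inr ⟨x', y', h1', h2', h3'⟩
      · exact Or.inr ⟨x, y, h1, h2, h3⟩
      · have : y = x' := hinj (h2.trans h1'.symm)
        subst this
        exact Or.inr ⟨x, y', h1, h2', hF.trans h3 h3'⟩
  have hEF : ∀ x y, F x y ↔ E (e x) (e y) := by
    intro x y
    constructor
    · intro h
      exact Or.inr ⟨x, y, rfl, rfl, h⟩
    · rintro (h | ⟨x', y', h1, h2, h3⟩)
      · rw [hinj h]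
        exact hF.refl _
      · rw [← hinj h1, ← hinj h2]
        exact h3
  have hA : AnalyticSet {p : (ℕ → Bool) × (ℕ → Bool) | E p.1 p.2} := by
    obtain ⟨B, g, hB, hg, hgr⟩ := hFA
    have hBs : StandardBorelSpace B := hB.standardBorel
    have h1 : AnalyticSet ((fun b => (e (g b).1, e (g b).2)) '' (Set.univ : Set B)) :=
      MeasurableSet.univ.analyticSet_image
        ((he.comp (measurable_fst.comp hg)).prodMk (he.comp (measurable_snd.comp hg)))
    have h2 : AnalyticSet (Set.diagonal (ℕ → Bool)) := isClosed_diagonal.analyticSet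
    have h3 : {p : (ℕ → Bool) × (ℕ → Bool) | E p.1 p.2} =
        Set.diagonal (ℕ → Bool) ∪ (fun b => (e (g b).1, e (g b).2)) '' (Set.univ : Set B) := by
      ext ⟨u, v⟩
      simp only [mem_ofPred_eq, mem_union, mem_diagonal_iff, mem_image, mem_univ, true_and,
        Prod.mk.injEq, E]
      refine or_congr Iff.rfl ⟨?_, ?_⟩
      · rintro ⟨x, y, h1, h2, h3⟩
        have : (x, y) ∈ Set.range g := by rw [hgr]; exact h3
        obtain ⟨b, hb⟩ := this
        exact ⟨b, by rw [hb]; exact h1, by rw [hb]; exact h2⟩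
      · rintro ⟨b, h1, h2⟩
        refine ⟨(g b).1, (g b).2, h1, h2, ?_⟩
        have : g b ∈ Set.range g := ⟨b, rfl⟩
        rw [hgr] at this
        exact this
    rw [h3, Set.union_eq_iUnion]
    refine AnalyticSet.iUnion fun b => ?_
    cases b
    · exact h1
    · exact h2
  obtain ⟨r, hr, hpc, hrE⟩ := cantor_case E hE hA
  refine ⟨fun x => ⟨r (e x), hC _ (hpc _)⟩, (hr.comp he).subtype_mk, fun x y => ?_⟩
  rw [hEF, hrE]
  rfl

theorem isAnalytic_of_analyticSet {Z : Type} [TopologicalSpace Z] [MeasurableSpace Z]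
    [BorelSpace Z] {S : Set Z} (h : AnalyticSet S) : IsAnalytic S := by
  rw [AnalyticSet] at h
  rcases h with rfl | ⟨g, hg, hr⟩
  · refine ⟨∅, fun b => b.2.elim, MeasurableSet.empty, ?_, ?_⟩
    · intro s _
      have : IsEmpty (∅ : Set (ℕ → ℕ)) := inferInstance
      rw [Set.eq_empty_of_isEmpty ((fun b : (∅ : Set (ℕ → ℕ)) => (b.2.elim : Z)) ⁻¹' s)]
      exact MeasurableSet.empty
    · rw [Set.range_eq_empty_iff]
      infer_instance
  · refine ⟨Set.univ, fun b => g b.1, MeasurableSet.univ, hg.measurable.comp measurable_subtype_coe, ?_⟩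
    rw [← hr]
    ext z
    simp

/-! ### isomorphism classes of graphs are Borel -/

/-- coding of a graph as a structure -/
def encG (G : Graphs) : ℕ → List ℕ → ℕ := fun _ l =>
  match l with
  | [a, b] => if G.1 (a, b) = true then 1 else 0
  | _ => 0

theorem encG_pair (G : Graphs) (n a b : ℕ) : encG G n [a, b] = if G.1 (a, b) = true then 1 else 0 := rfl

theorem measurable_encG : Measurable encG := by
  refine measurable_pi_lambda _ fun n => measurable_pi_lambda _ fun l => ?_
  rcases l with _ | ⟨a, _ | ⟨b, _ | ⟨c, l⟩⟩⟩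
  · exact measurable_const
  · exact measurable_const
  · have h1 : Measurable fun G : Graphs => G.1 (a, b) :=
      (measurable_pi_apply (a, b)).comp measurable_subtype_coe
    exact Measurable.ite (h1 (measurableSet_singleton true)) measurable_const measurable_const
  · exact measurable_const

theorem measurableSet_class (H : Graphs) : MeasurableSet {G : Graphs | GraphIso G H} := by
  have h := measurable_encG (Orb.measurableSet_orbit (encG H))
  have e : {G : Graphs | GraphIso G H} = encG ⁻¹' {y : ℕ → List ℕ → ℕ |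
      ∃ σ π : Equiv.Perm ℕ, ∀ n l, y (π n) (l.map σ) = encG H n l} := by
    ext G
    simp only [mem_ofPred_eq, mem_preimage]
    constructor
    · rintro ⟨σ, hσ⟩
      refine ⟨σ.symm, 1, fun n l => ?_⟩
      rcases l with _ | ⟨a, _ | ⟨b, _ | ⟨c, l⟩⟩⟩
      · rfl
      · rfl
      · simp only [List.map_cons, List.map_nil, encG_pair, hσ, Equiv.apply_symm_apply]
      · rfl
    · rintro ⟨σ, π, h⟩
      refine ⟨σ.symm, fun m n => ?_⟩
      have h1 := h 0 [σ.symm m, σ.symm n]
      simp only [List.map_cons, List.map_nil, Equiv.apply_symm_apply] at h1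
      rw [encG_pair, encG_pair] at h1
      cases hG : G.1 (m, n) <;> cases hH : H.1 (σ.symm m, σ.symm n) <;> simp_all
  rw [e]
  exact h

/-- A hard relation is not reducible to graph isomorphism. -/
theorem not_reducible_of_hard {Y : Type} [MeasurableSpace Y] {R : Y → Y → Prop}
    (hR : AnalyticHard.{0} R) : ¬ BorelReducible R GraphIso := by
  rintro ⟨r, hr, hrR⟩
  obtain ⟨Z, mZ, sZ, π, hπ, hD⟩ := exists_range_not_measurable
  set D : Set (ℕ → Bool) := Set.range π with hDdef
  have hDA : AnalyticSet D := by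
    have := MeasurableSet.univ.analyticSet_image hπ
    rwa [Set.image_univ] at this
  have hDD : AnalyticSet (D ×ˢ D) := by
    have h1 : AnalyticSet ((fun z : Z × Z => (π z.1, π z.2)) '' (Set.univ : Set (Z × Z))) :=
      MeasurableSet.univ.analyticSet_image
        ((hπ.comp measurable_fst).prodMk (hπ.comp measurable_snd))
    have h2 : (fun z : Z × Z => (π z.1, π z.2)) '' (Set.univ : Set (Z × Z)) = D ×ˢ D := by
      ext ⟨u, v⟩
      simp [hDdef]
    rwa [h2] at h1
  let F : (ℕ → Bool) → (ℕ → Bool) → Prop := fun x y => x = y ∨ (x ∈ D ∧ y ∈ D)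
  have hF : Equivalence F := by
    refine ⟨fun u => Or.inl rfl, ?_, ?_⟩
    · rintro u v (h | ⟨h1, h2⟩)
      · exact Or.inl h.symm
      · exact Or.inr ⟨h2, h1⟩
    · rintro u v w (rfl | ⟨h1, h2⟩) (rfl | ⟨h3, h4⟩)
      · exact Or.inl rfl
      · exact Or.inr ⟨h3, h4⟩
      · exact Or.inr ⟨h1, h2⟩
      · exact Or.inr ⟨h1, h4⟩
  have hFA : AnalyticSet {p : (ℕ → Bool) × (ℕ → Bool) | F p.1 p.2} := by
    have h3 : {p : (ℕ → Bool) × (ℕ → Bool) | F p.1 p.2} = Set.diagonal (ℕ → Bool) ∪ D ×ˢ D := by
      ext ⟨u, v⟩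
      simp [F]
    rw [h3, Set.union_eq_iUnion]
    refine AnalyticSet.iUnion fun b => ?_
    cases b
    · exact hDD
    · exact isClosed_diagonal.analyticSet
  obtain ⟨h, hh, hhF⟩ := hR (ℕ → Bool) F hF (isAnalytic_of_analyticSet hFA)
  have hne : D.Nonempty := by
    by_contra hne
    rw [Set.not_nonempty_iff_eq_empty] at hne
    rw [hne] at hD
    exact hD MeasurableSet.empty
  obtain ⟨d, hd⟩ := hne
  apply hD
  have : D = (fun x => r (h x)) ⁻¹' {G | GraphIso G (r (h d))} := by
    ext x
    simp only [mem_preimage, mem_ofPred_eq]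
    rw [← hrR, ← hhF]
    constructor
    · intro hx
      exact Or.inr ⟨hx, hd⟩
    · rintro (rfl | ⟨hx, -⟩)
      · exact hd
      · exact hx
  rw [this]
  exact (hr.comp hh) (measurableSet_class _)

end Pool.Agent.Helper732.SInf
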