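import Pool.Agent.Helper732.SInf.Grp

set_option autoImplicit false

open Set Filter Topology

namespace Pool.Agent.Helper732.SInf

/-! ### the groups `HH P` and `GP P` -/

/-- the homomorphism from `GP P` to `HH P` -/
noncomputable def eHom (P : Set Idx) : Multiplicative (GP P) →* HH P where
  toFun g := ⟨toPerm g.toAdd.1, g.toAdd.1, g.toAdd.2, rfl⟩
  map_one' := Subtype.ext toPerm_zero
  map_mul' g h := Subtype.ext (toPerm_add g.toAdd.1 h.toAdd.1)

/-- `GP P` and `HH P` are isomorphic groups. -/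
noncomputable def eP (P : Set Idx) : Multiplicative (GP P) ≃* HH P :=
  MulEquiv.ofBijective (eHom P)
    ⟨fun g h hgh => by
        have h1 : toPerm g.toAdd.1 = toPerm h.toAdd.1 := congrArg Subtype.val hgh
        exact Multiplicative.toAdd.injective (Subtype.ext (toPerm_injective h1)),
      fun σ => by
        obtain ⟨σ, g, hg, rfl⟩ := σ
        exact ⟨Multiplicative.ofAdd ⟨g, hg⟩, rfl⟩⟩

theorem eP_val (P : Set Idx) (g : Multiplicative (GP P)) :
    ((eP P g : HH P) : Equiv.Perm ℕ) = toPerm g.toAdd.1 := rfl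

theorem continuous_of_modulus {P Q : Set Idx} (φ : HH P →* HH Q) (T : GP P →+ GP Q)
    (hT : ∀ g : GP P, φ (eP P (Multiplicative.ofAdd g)) = eP Q (Multiplicative.ofAdd (T g)))
    (h1 : ∀ i, ∃ j, ∀ g : GP P, g.1 ∈ NN j → (T g).1 ∈ NN i) : Continuous φ := by
  refine continuous_induced_rng.2 (continuous_induced_rng.2 (continuous_pi fun n => ?_))
  rw [continuous_iff_continuousAt]
  intro σ
  obtain ⟨g0, rfl⟩ := (eP P).surjective σ
  obtain ⟨j, hj⟩ := h1 (lev n)
  have hopen : IsOpen {τ : HH P | τ.1 (en ⟨j, 0⟩) = ((eP P g0 : HH P) : Equiv.Perm ℕ) (en ⟨j, 0⟩)} :=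
    (isOpen_agree _ _).preimage continuous_subtype_val
  have hmem := hopen.mem_nhds (show (eP P g0 : HH P) ∈ _ from rfl)
  refine (tendsto_const_nhds (x := ((φ (eP P g0) : HH Q) : Equiv.Perm ℕ) n)).congr' ?_
  filter_upwards [hmem] with τ hτ
  obtain ⟨g, rfl⟩ := (eP P).surjective τ
  have h2 : g.toAdd.1 - g0.toAdd.1 ∈ NN j := by
    have h3 : toPerm g.toAdd.1 (en ⟨j, 0⟩) = toPerm g0.toAdd.1 (en ⟨j, 0⟩) := hτ
    exact toPerm_eq_iff.1 h3
  have h4 := hj (g.toAdd - g0.toAdd) h2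
  rw [map_sub] at h4
  have h5 := hT g.toAdd
  have h6 := hT g0.toAdd
  simp only [ofAdd_toAdd] at h5 h6
  simp only [Function.comp_apply]
  rw [h5, h6, eP_val, eP_val, toAdd_ofAdd, toAdd_ofAdd]
  exact (toPerm_eq_of_lev le_rfl h4).symm

theorem topIso_of_addEquiv {P Q : Set Idx} (T : GP P ≃+ GP Q)
    (h1 : ∀ i, ∃ j, ∀ g : GP P, g.1 ∈ NN j → (T g).1 ∈ NN i)
    (h2 : ∀ i, ∃ j, ∀ g : GP Q, g.1 ∈ NN j → (T.symm g).1 ∈ NN i) : TopIso (HC P) (HC Q) := by
  let φ : HH P ≃* HH Q := (eP P).symm.trans ((AddEquiv.toMultiplicative T).trans (eP Q))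
  refine ⟨φ, ?_, ?_⟩
  · refine continuous_of_modulus φ.toMonoidHom T.toAddMonoidHom (fun g => ?_) h1
    simp only [φ, MulEquiv.toMonoidHom_eq_coe, MonoidHom.coe_coe, MulEquiv.trans_apply,
      MulEquiv.symm_apply_apply]
    rfl
  · refine continuous_of_modulus φ.symm.toMonoidHom T.symm.toAddMonoidHom (fun g => ?_) h2
    simp only [φ, MulEquiv.toMonoidHom_eq_coe, MonoidHom.coe_coe, MulEquiv.symm_trans_apply,
      MulEquiv.symm_apply_apply, MulEquiv.symm_symm]
    rfl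

theorem of_topIso {P Q : Set Idx} (h : TopIso (HC P) (HC Q)) : ∃ T : GP P →+ GP Q,
    Function.Injective T ∧ ∀ i, ∃ j, ∀ g : GP P, g.1 ∈ NN j → (T g).1 ∈ NN i := by
  obtain ⟨φ, hφ, -⟩ := h
  change HH P ≃* HH Q at φ
  let ψ : Multiplicative (GP P) ≃* Multiplicative (GP Q) := (eP P).trans (φ.trans (eP Q).symm)
  let T : GP P →+ GP Q :=
    { toFun := fun g => (ψ (Multiplicative.ofAdd g)).toAdd
      map_zero' := by
        have : Multiplicative.ofAdd (0 : GP P) = 1 := rfl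
        rw [this, map_one]
        rfl
      map_add' := fun g h => by
        have : Multiplicative.ofAdd (g + h) = Multiplicative.ofAdd g * Multiplicative.ofAdd h := rfl
        rw [this, map_mul]
        rfl }
  have hT : ∀ g : GP P, φ (eP P (Multiplicative.ofAdd g)) = eP Q (Multiplicative.ofAdd (T g)) := by
    intro g
    have : Multiplicative.ofAdd (T g) = ψ (Multiplicative.ofAdd g) := rfl
    rw [this]
    simp [ψ]
  refine ⟨T, ?_, ?_⟩
  · intro g h hgh
    have h1 : Multiplicative.ofAdd (T g) = Multiplicative.ofAdd (T h) := by rw [hgh]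
    exact Multiplicative.ofAdd.injective (ψ.injective h1)
  · intro i
    have hopen : IsOpen {σ : HH P | ((φ σ : HH Q) : Equiv.Perm ℕ) (en ⟨i, 0⟩) = en ⟨i, 0⟩} :=
      (isOpen_agree _ _).preimage (continuous_subtype_val.comp hφ)
    obtain ⟨U, hU, hUe⟩ := isOpen_induced_iff.1 hopen
    have h1 : (1 : Equiv.Perm ℕ) ∈ U := by
      have : (1 : HH P) ∈ Subtype.val ⁻¹' U := by
        rw [hUe]
        simp
      exact this
    obtain ⟨S, hS⟩ := exists_finset hU h1
    obtain ⟨j, hj⟩ := exists_lev S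
    refine ⟨j, fun g hg => ?_⟩
    have h2 : (eP P (Multiplicative.ofAdd g) : HH P) ∈ (Subtype.val ⁻¹' U : Set (HH P)) := by
      refine hS _ fun n hn => ?_
      rw [eP_val, toAdd_ofAdd, ← toPerm_zero]
      exact toPerm_eq_of_lev (hj n hn) (by rwa [sub_zero])
    rw [hUe] at h2
    have h3 : ((φ (eP P (Multiplicative.ofAdd g)) : HH Q) : Equiv.Perm ℕ) (en ⟨i, 0⟩) = en ⟨i, 0⟩ := h2
    rw [hT, eP_val, toAdd_ofAdd] at h3
    have h4 : toPerm (T g).1 (en ⟨i, 0⟩) = toPerm 0 (en ⟨i, 0⟩) := by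
      rw [h3, toPerm_zero]; rfl
    have := toPerm_eq_iff.1 h4
    rwa [sub_zero] at this

/-! ### transfer along a bijection of indices -/

open Classical in
/-- transfer of functions -/
noncomputable def trf {P Q : Set Idx} (F : P ≃ Q) (g : Idx → M) : Idx → M :=
  fun q => if h : q ∈ Q then g (F.symm ⟨q, h⟩) else 0

theorem trf_apply {P Q : Set Idx} (F : P ≃ Q) (g : Idx → M) (p : P) : trf F g (F p) = g p := by
  simp [trf]

theorem trf_out {P Q : Set Idx} (F : P ≃ Q) (g : Idx → M) {q : Idx} (hq : q ∉ Q) :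
    trf F g q = 0 := by
  simp [trf, hq]

/-- same type, and modulus `α` -/
def Good {P Q : Set Idx} (F : P ≃ Q) (α : ℕ → ℕ) : Prop :=
  ∀ p : P, (⟨(F p).1.k, (F p).1.v⟩ : Σ k, (Fin k → Bool)) = ⟨p.1.k, p.1.v⟩ ∧
    ∀ i, (F p).1.a i ≤ p.1.a (α i)

theorem Good.ell {P Q : Set Idx} {F : P ≃ Q} {α : ℕ → ℕ} (h : Good F α) (p : P) :
    SInf.ell (F p).1.k (F p).1.v = SInf.ell p.1.k p.1.v ∧ (F p).1.k = p.1.k := by
  have h1 := (h p).1
  constructor
  · unfold SInf.ell
    rw [h1]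
  · exact congrArg Sigma.fst h1

theorem Good.q {P Q : Set Idx} {F : P ≃ Q} {α : ℕ → ℕ} (h : Good F α) (p : P) (i : ℕ) {c : M}
    (hc : p.1.q (α i) • c = 0) : (F p).1.q i • c = 0 := by
  have h1 : p.1.q (α i) ∣ (F p).1.q i := by
    unfold Idx.q
    rw [(h.ell p).1, (h.ell p).2]
    exact pow_dvd_pow _ (by have := (h p).2 i; omega)
  obtain ⟨d, hd⟩ := h1
  rw [hd, mul_comm, mul_smul, hc, smul_zero]

theorem trf_mem {P Q : Set Idx} {F : P ≃ Q} {α : ℕ → ℕ} (h : Good F α) {g : Idx → M}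
    (hg : g ∈ GG) : trf F g ∈ GG := by
  constructor
  · intro q
    by_cases hq : q ∈ Q
    · obtain ⟨p, hp⟩ := F.surjective ⟨q, hq⟩
      have : q = (F p).1 := by rw [hp]
      subst this
      rw [trf_apply, (h.ell p).1, (h.ell p).2]
      exact hg.1 p
    · rw [trf_out F g hq, smul_zero]
  · intro i
    refine (((hg.2 (α i)).preimage (f := fun p : P => p.1) Subtype.val_injective.injOn).image
      (fun p : P => (F p).1)).subset ?_
    intro q hq
    have hqQ : q ∈ Q := by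
      by_contra hqQ
      exact hq (by rw [trf_out F g hqQ, smul_zero])
    obtain ⟨p, hp⟩ := F.surjective ⟨q, hqQ⟩
    have : q = (F p).1 := by rw [hp]
    subst this
    refine ⟨p, ?_, rfl⟩
    intro h0
    apply hq
    rw [trf_apply]
    exact h.q p i h0

theorem trf_trf {P Q : Set Idx} (F : P ≃ Q) {g : Idx → M} (hg : ∀ p, p ∉ P → g p = 0) :
    trf F.symm (trf F g) = g := by
  funext p
  by_cases hp : p ∈ P
  · have h1 := trf_apply F.symm (trf F g) (F ⟨p, hp⟩)
    rw [F.symm_apply_apply] at h1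
    rw [h1, trf_apply]
  · rw [trf_out _ _ hp, hg p hp]

theorem trf_add {P Q : Set Idx} (F : P ≃ Q) (g h : Idx → M) : trf F (g + h) = trf F g + trf F h := by
  funext q
  by_cases hq : q ∈ Q
  · simp [trf, hq]
  · simp [trf, hq]

/-- the additive equivalence induced by a bijection of indices -/
noncomputable def trE {P Q : Set Idx} (F : P ≃ Q) (α β : ℕ → ℕ) (h : Good F α)
    (h' : Good F.symm β) : GP P ≃+ GP Q where
  toFun g := ⟨⟨trf F g.1.1, trf_mem h g.1.2⟩, fun _ hq => trf_out F _ hq⟩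
  invFun g := ⟨⟨trf F.symm g.1.1, trf_mem h' g.1.2⟩, fun _ hq => trf_out F.symm _ hq⟩
  left_inv g := Subtype.ext (Subtype.ext (trf_trf F g.2))
  right_inv g := Subtype.ext (Subtype.ext (trf_trf F.symm g.2))
  map_add' g h := Subtype.ext (Subtype.ext (trf_add F g.1.1 h.1.1))

theorem trf_NN {P Q : Set Idx} {F : P ≃ Q} {α : ℕ → ℕ} (h : Good F α) {g : Idx → M} {i : ℕ}
    (hg : ∀ p : Idx, p.q (α i) • g p = 0) : ∀ q : Idx, q.q i • trf F g q = 0 := by
  intro q
  by_cases hq : q ∈ Q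
  · obtain ⟨p, hp⟩ := F.surjective ⟨q, hq⟩
    have : q = (F p).1 := by rw [hp]
    subst this
    rw [trf_apply]
    exact h.q p i (hg p)
  · rw [trf_out F g hq, smul_zero]

theorem topIso_of_good {P Q : Set Idx} (F : P ≃ Q) (α β : ℕ → ℕ) (h : Good F α)
    (h' : Good F.symm β) : TopIso (HC P) (HC Q) :=
  topIso_of_addEquiv (trE F α β h h') (fun i => ⟨α i, fun _ hg => trf_NN h hg⟩)
    (fun i => ⟨β i, fun _ hg => trf_NN h' hg⟩)

/-! ### pro-countability -/

theorem isProCountable_HC (P : Set Idx) : IsProCountable (HC P) := by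
  intro U hU h1
  obtain ⟨V, hV, rfl⟩ := isOpen_induced_iff.1 hU
  obtain ⟨S, hS⟩ := exists_finset hV (show (1 : Equiv.Perm ℕ) ∈ V from h1)
  obtain ⟨i, hi⟩ := exists_lev S
  let K : AddSubgroup (GP P) := (NN i).comap (GP P).subtype
  have hKmem : ∀ g : GP P, g ∈ K ↔ g.1 ∈ NN i := fun g => Iff.rfl
  let N : Subgroup (HH P) := (AddSubgroup.toSubgroup K).map (eP P).toMonoidHom
  have hN : ∀ σ : HH P, σ ∈ N ↔ (σ : Equiv.Perm ℕ) (en ⟨i, 0⟩) = en ⟨i, 0⟩ := by
    intro σ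
    obtain ⟨g, rfl⟩ := (eP P).surjective σ
    have e1 : ((eP P g : HH P) : Equiv.Perm ℕ) (en ⟨i, 0⟩) = en ⟨i, 0⟩ ↔ g.toAdd.1 ∈ NN i := by
      have h4 : toPerm g.toAdd.1 (en ⟨i, 0⟩) = toPerm 0 (en ⟨i, 0⟩) ↔ g.toAdd.1 - 0 ∈ NN i :=
        toPerm_eq_iff
      rw [sub_zero, toPerm_zero] at h4
      exact h4
    rw [e1]
    constructor
    · rintro ⟨g', hg', he⟩
      have : g' = g := (eP P).injective he
      subst this
      exact hg'
    · intro hg
      exact ⟨g, hg, rfl⟩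
  have hcomm : ∀ σ τ : HH P, σ * τ = τ * σ := by
    intro σ τ
    obtain ⟨g, rfl⟩ := (eP P).surjective σ
    obtain ⟨h, rfl⟩ := (eP P).surjective τ
    rw [← map_mul, ← map_mul, mul_comm]
  have hNn : N.Normal := ⟨fun σ hσ τ => by
    rw [hcomm τ σ, mul_assoc, mul_inv_cancel, mul_one]
    exact hσ⟩
  refine ⟨N, hNn, ?_, ?_⟩
  · have : (N : Set (HH P)) = {σ : HH P | (σ : Equiv.Perm ℕ) (en ⟨i, 0⟩) = en ⟨i, 0⟩} := by
      ext σ
      exact hN σ
    change IsOpen (N : Set (HH P))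
    rw [this]
    exact (isOpen_agree _ _).preimage continuous_subtype_val
  · intro σ hσ
    have hσ' := (hN σ).1 hσ
    obtain ⟨g, rfl⟩ := (eP P).surjective σ
    refine hS _ fun n hn => ?_
    have h4 : toPerm g.toAdd.1 (en ⟨i, 0⟩) = toPerm 0 (en ⟨i, 0⟩) := by
      rw [toPerm_zero]; exact hσ'
    have h5 := toPerm_eq_iff.1 h4
    have h6 := toPerm_eq_of_lev (hi n hn) h5
    rw [toPerm_zero] at h6
    exact h6

end Pool.Agent.Helper732.SInf
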