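import Pool.Agent.Helper732.SInf.Iso

set_option autoImplicit false

open Set Filter Topology MeasureTheory

namespace Pool.Agent.Helper732.SInf

variable (f : (ℕ → ℕ) → (ℕ → Bool) × (ℕ → Bool))

/-- the set of indices attached to `x` -/
def PX (x : ℕ → Bool) : Set Idx := {p | ∃ m, Reach f p.k (res p.k x) p.v m p.a}

theorem measurable_res (k : ℕ) : Measurable (res k) :=
  measurable_pi_lambda _ fun i => measurable_pi_apply _

theorem measurableSet_PX (p : Idx) : MeasurableSet {x | p ∈ PX f x} := by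
  have : {x | p ∈ PX f x} = res p.k ⁻¹' {u | ∃ m, Reach f p.k u p.v m p.a} := rfl
  rw [this]
  exact measurable_res _ (Set.toFinite _).measurableSet

/-- the reduction is Borel -/
theorem measurable_HC : Measurable fun x => HC (PX f x) := by
  refine measurable_generateFrom ?_
  rintro _ ⟨U, hU, rfl⟩
  have : (fun x => HC (PX f x)) ⁻¹' {G : ClosedSub | ((G.1 : Set (Equiv.Perm ℕ)) ∩ U).Nonempty} =
      ⋃ g ∈ {g : GG | {p | g.1 p ≠ 0}.Finite ∧ toPerm g ∈ U}, ⋂ p ∈ {p | g.1 p ≠ 0}, {x | p ∈ PX f x} := by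
    ext x
    simp only [mem_preimage, mem_ofPred_eq, mem_iUnion, mem_iInter, exists_prop]
    constructor
    · rintro ⟨σ, ⟨g, hg, rfl⟩, hσ⟩
      obtain ⟨S, hS⟩ := exists_finset hU hσ
      obtain ⟨i, hi⟩ := exists_lev S
      refine ⟨trunc i g, ⟨trunc_finite i g, ?_⟩, ?_⟩
      · refine hS _ fun n hn => toPerm_eq_of_lev (hi n hn) (trunc_sub i g)
      · intro p hp
        by_contra hne
        exact hp (trunc_mem i hg p hne)
    · rintro ⟨g, ⟨-, hg2⟩, hg3⟩
      refine ⟨toPerm g, ⟨g, fun p hp => ?_, rfl⟩, hg2⟩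
      by_contra hne
      exact hp (hg3 p hne)
  rw [this]
  refine MeasurableSet.biUnion (countable_fs.mono fun g hg => hg.1) fun g hg => ?_
  exact MeasurableSet.biInter hg.1.countable fun p _ => measurableSet_PX f p

/-! ### from equivalent points to isomorphic groups -/

theorem exists_code : ∃ c : Idx → ℕ, Function.Injective c := exists_injective_nat Idx

/-- an injective coding of indices by natural numbers -/
noncomputable def cd : Idx → ℕ := exists_code.choose

theorem cd_injective : Function.Injective cd := exists_code.choose_spec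

/-- shift of an index -/
noncomputable def up (γ : ℕ → ℕ) (p : Idx) : Idx where
  k := p.k
  v := p.v
  a := fun i => p.a (A γ i)
  j := cd p
  mono := fun _ _ h => p.mono (A_mono γ h)
  le := fun i => p.le _
  big := fun i hi => p.big _ (hi.trans (lt_A γ i).le)

theorem up_injective (γ : ℕ → ℕ) : Function.Injective (up γ) := by
  intro p q h
  exact cd_injective (congrArg Idx.j h)

variable {f}

theorem up_mem {γ : ℕ → ℕ} {x y : ℕ → Bool} (h : ∀ k, Edge f k (res k y) (res k x) γ) {p : Idx}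
    (hp : p ∈ PX f x) : up γ p ∈ PX f y := by
  obtain ⟨m, hm⟩ := hp
  exact ⟨m + 1, Reach.cons (h p.k) hm⟩

/-- relation between corresponding indices -/
def Rel (γ : ℕ → ℕ) (p q : Idx) : Prop :=
  (⟨q.k, q.v⟩ : Σ k, (Fin k → Bool)) = ⟨p.k, p.v⟩ ∧
    ((∀ i, q.a i = p.a (A γ i)) ∨ ∀ i, p.a i = q.a (A γ i))

theorem Rel.symm {γ : ℕ → ℕ} {p q : Idx} (h : Rel γ p q) : Rel γ q p :=
  ⟨h.1.symm, h.2.symm⟩

theorem Rel.le {γ : ℕ → ℕ} {p q : Idx} (h : Rel γ p q) (i : ℕ) : q.a i ≤ p.a (A γ i) := by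
  rcases h.2 with h | h
  · exact (h i).le
  · rw [h]
    exact q.mono ((lt_A γ i).le.trans (lt_A γ _).le)

theorem topIso_of_rel (γ : ℕ → ℕ) : TopIso (HC (PX f (f γ).1)) (HC (PX f (f γ).2)) := by
  have e1 : ∀ k, Edge f k (res k (f γ).1) (res k (f γ).2) γ := fun k => Or.inl ⟨rfl, rfl⟩
  have e2 : ∀ k, Edge f k (res k (f γ).2) (res k (f γ).1) γ := fun k => Or.inr ⟨rfl, rfl⟩
  let u : PX f (f γ).1 → PX f (f γ).2 := fun p => ⟨up γ p.1, up_mem e2 p.2⟩
  let w : PX f (f γ).2 → PX f (f γ).1 := fun p => ⟨up γ p.1, up_mem e1 p.2⟩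
  have hu : Function.Injective u := fun p q h =>
    Subtype.ext (up_injective γ (congrArg Subtype.val h))
  have hw : Function.Injective w := fun p q h =>
    Subtype.ext (up_injective γ (congrArg Subtype.val h))
  obtain ⟨F0, hF0, hR⟩ := Function.Embedding.schroeder_bernstein_of_rel hu hw
    (fun p q => Rel γ p.1 q.1) (fun p => ⟨rfl, Or.inl fun i => rfl⟩)
    (fun q => ⟨rfl, Or.inr fun i => rfl⟩)
  let F : PX f (f γ).1 ≃ PX f (f γ).2 := Equiv.ofBijective F0 hF0
  have hF : ∀ p, F p = F0 p := fun p => rfl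
  refine topIso_of_good F (A γ) (A γ) (fun p => ⟨(hR p).1, (hR p).le⟩) (fun q => ?_)
  have h1 := hR (F.symm q)
  rw [← hF, F.apply_symm_apply] at h1
  exact ⟨h1.symm.1, h1.symm.le⟩

/-! ### from isomorphic groups to equivalent points -/

/-- the root at stage `k` -/
def root (k : ℕ) (x : ℕ → Bool) : Idx where
  k := k
  v := res k x
  a := fun i => min i k
  j := 0
  mono := fun i j h => by dsimp only; omega
  le := fun i => min_le_right _ _
  big := fun i hi => by omega

theorem root_mem (k : ℕ) (x : ℕ → Bool) : root k x ∈ PX f x := ⟨0, Reach.nil _⟩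

theorem reach_cast {k k' : ℕ} {y x : ℕ → Bool} {v : Fin k' → Bool} {m : ℕ} {a : ℕ → ℕ}
    (h : (⟨k', v⟩ : Σ k, (Fin k → Bool)) = ⟨k, res k x⟩) (hR : Reach f k' (res k' y) v m a) :
    Reach f k (res k y) (res k x) m a := by
  cases h
  exact hR

theorem bounded_of_hom {x y : ℕ → Bool} (T : GP (PX f x) →+ GP (PX f y))
    (hinj : Function.Injective T) (J : ℕ → ℕ)
    (hJ : ∀ i, ∀ g : GP (PX f x), g.1 ∈ NN (J i) → (T g).1 ∈ NN i) (k : ℕ) (hk : 0 < k) :
    ∃ m a, Reach f k (res k y) (res k x) m a ∧ ∀ i, J i < k → a i ≤ J i := by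
  classical
  set l := ell k (res k x) with hl
  have hlp : l.Prime := ell_prime _ _
  have hlk : 0 < l ^ k := pow_pos hlp.pos k
  -- the generator at the root
  let c : M := ((1 / (l ^ k : ℕ) : ℚ) : M)
  have hc : addOrderOf c = l ^ k := AddCircle.addOrderOf_period_div hlk
  let g0 : Idx → M := fun p => if p = root k x then c else 0
  have hg0 : g0 ∈ GG := by
    constructor
    · intro p
      by_cases hp : p = root k x
      · subst hp
        simp only [g0, if_true]
        have : ell (root k x).k (root k x).v ^ (root k x).k = addOrderOf c := hc.symm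
        rw [this, addOrderOf_nsmul_eq_zero]
      · simp [g0, hp]
    · intro i
      refine (Set.finite_singleton (root k x)).subset ?_
      intro p hp
      by_contra hne
      apply hp
      have : p ≠ root k x := hne
      simp [g0, this]
  have hg0P : (⟨g0, hg0⟩ : GG) ∈ GP (PX f x) := by
    intro p hp
    have : p ≠ root k x := by
      rintro rfl
      exact hp (root_mem k x)
    simp [g0, this]
  let g : GP (PX f x) := ⟨⟨g0, hg0⟩, hg0P⟩
  have hgval : ∀ p, g.1.1 p = if p = root k x then c else 0 := fun p => rfl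
  have hsm : ∀ (n : ℕ) (g : GP (PX f x)) p, (n • g).1.1 p = n • g.1.1 p := fun n g p => rfl
  have hsm' : ∀ (n : ℕ) (g : GP (PX f y)) p, (n • g).1.1 p = n • g.1.1 p := fun n g p => rfl
  have h1 : l ^ k • g = 0 := by
    apply Subtype.ext
    apply Subtype.ext
    funext p
    rw [hsm, hgval]
    split_ifs
    · rw [← hc, addOrderOf_nsmul_eq_zero]; rfl
    · rw [smul_zero]; rfl
  have h2 : l ^ (k - 1) • g ≠ 0 := by
    intro h
    have h3 : (l ^ (k - 1) • g).1.1 (root k x) = 0 := by rw [h]; rfl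
    rw [hsm, hgval, if_pos rfl] at h3
    have h4 := addOrderOf_dvd_of_nsmul_eq_zero h3
    rw [hc] at h4
    have h5 := Nat.le_of_dvd (pow_pos hlp.pos _) h4
    have h6 : l ^ (k - 1) < l ^ k := Nat.pow_lt_pow_right hlp.one_lt (by omega)
    omega
  have h1' : l ^ k • T g = 0 := by rw [← map_nsmul, h1, map_zero]
  have h2' : l ^ (k - 1) • T g ≠ 0 := by
    rw [← map_nsmul]
    intro h
    exact h2 (hinj (h.trans (map_zero T).symm))
  obtain ⟨q, hq⟩ : ∃ q, l ^ (k - 1) • (T g).1.1 q ≠ 0 := by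
    by_contra hne
    push Not at hne
    apply h2'
    apply Subtype.ext
    apply Subtype.ext
    funext q
    rw [hsm', hne q]; rfl
  have hqP : q ∈ PX f y := by
    by_contra hne
    apply hq
    rw [(T g).2 q hne, smul_zero]
  have hq1 : l ^ k • (T g).1.1 q = 0 := by
    rw [← hsm', h1']; rfl
  have hord : addOrderOf ((T g).1.1 q) = l ^ k := by
    have h3 := addOrderOf_dvd_of_nsmul_eq_zero hq1
    obtain ⟨m, hm, hm'⟩ := (Nat.dvd_prime_pow hlp).1 h3
    rw [hm']
    congr 1
    by_contra hne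
    apply hq
    apply addOrderOf_dvd_iff_nsmul_eq_zero.1
    rw [hm']
    exact pow_dvd_pow _ (by omega)
  have hell : ell q.k q.v = l := by
    have h3 := (T g).1.2.1 q
    have h4 := addOrderOf_dvd_of_nsmul_eq_zero h3
    rw [hord] at h4
    have h5 : l ∣ ell q.k q.v ^ q.k := (dvd_pow_self l (by omega)).trans h4
    have h6 := hlp.dvd_of_dvd_pow h5
    exact ((Nat.prime_dvd_prime_iff_eq hlp (ell_prime _ _)).1 h6).symm
  have htype := ell_inj (hell.trans hl)
  have hqk : q.k = k := congrArg Sigma.fst htype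
  obtain ⟨m, hm⟩ := hqP
  refine ⟨m, q.a, reach_cast htype hm, fun i hi => ?_⟩
  -- the bound
  have h3 : (l ^ J i • g).1 ∈ NN (J i) := by
    intro p
    rw [hsm, hgval]
    split_ifs with hp
    · subst hp
      have : (root k x).q (J i) = l ^ (k - J i) := by
        have : (root k x).a (J i) = J i := by simp only [root]; omega
        simp only [Idx.q, this]
        rfl
      rw [this, ← mul_smul, ← pow_add, show k - J i + J i = k by omega, ← hc,
        addOrderOf_nsmul_eq_zero]
    · rw [smul_zero, smul_zero]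
  have h4 := hJ i _ h3 q
  rw [map_nsmul, hsm', ← mul_smul] at h4
  have h5 := addOrderOf_dvd_of_nsmul_eq_zero h4
  rw [hord] at h5
  have h6 : q.q i = l ^ (k - q.a i) := by
    unfold Idx.q
    rw [hell, hqk]
  rw [h6, ← pow_add] at h5
  have h7 := (Nat.pow_dvd_pow_iff_le_right hlp.one_lt).1 h5
  have h8 := q.le i
  rw [hqk] at h8
  omega

theorem rel_of_topIso (hf : Continuous f) (E : (ℕ → Bool) → (ℕ → Bool) → Prop) (hE : Equivalence E)
    (hfE : ∀ γ, E (f γ).1 (f γ).2) {x y : ℕ → Bool} (h : TopIso (HC (PX f x)) (HC (PX f y))) :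
    E y x := by
  obtain ⟨T, hinj, hT⟩ := of_topIso h
  choose J hJ using hT
  exact limit hf E hE hfE J x y fun k hk => bounded_of_hom T hinj J hJ k (by omega)

end Pool.Agent.Helper732.SInf
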